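import Mathlib.Data.NNReal.Defs
import Mathlib.Analysis.Real.Cardinality
import Mathlib.RingTheory.Algebraic.Cardinality
import Mathlib.SetTheory.Cardinal.Rat
import Pool.Agent.MP_841a27_al.G.Yes
import Pool.Agent.MP_841a27_al.G.No

/-!
Shift equivalence and strong shift equivalence over the nonnegative part of an ordered field.
-/

set_option autoImplicit false

namespace Pool.Agent.Results.MP_841a27_al.OrderedFields

/-- Shift equivalence over a semiring. -/
def SE {R : Type} [Semiring R] {m n : ℕ} (A : Matrix (Fin (m + 1)) (Fin (m + 1)) R)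
    (B : Matrix (Fin (n + 1)) (Fin (n + 1)) R) : Prop :=
  ∃ ℓ : ℕ, 1 ≤ ℓ ∧ ∃ S : Matrix (Fin (m + 1)) (Fin (n + 1)) R,
    ∃ T : Matrix (Fin (n + 1)) (Fin (m + 1)) R,
      A ^ ℓ = S * T ∧ B ^ ℓ = T * S ∧ A * S = S * B ∧ T * A = B * T

/-- Strong shift equivalence over a semiring: a finite chain of elementary equivalences. -/
def SSE {R : Type} [Semiring R] {m n : ℕ} (A : Matrix (Fin (m + 1)) (Fin (m + 1)) R)
    (B : Matrix (Fin (n + 1)) (Fin (n + 1)) R) : Prop :=
  Relation.ReflTransGen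
    (fun X Y : (Σ k : ℕ, Matrix (Fin (k + 1)) (Fin (k + 1)) R) =>
      ∃ S : Matrix (Fin (X.1 + 1)) (Fin (Y.1 + 1)) R,
      ∃ T : Matrix (Fin (Y.1 + 1)) (Fin (X.1 + 1)) R, X.2 = S * T ∧ Y.2 = T * S)
    ⟨m, A⟩ ⟨n, B⟩

/-- Over the nonnegative elements of a linearly ordered field `F`, shift equivalence implies strong
shift equivalence (for all square matrices, or for the primitive ones) exactly when `F` is
algebraic over the rationals. -/
theorem result (F : Type) [Field F] [LinearOrder F] [IsStrictOrderedRing F] :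
    List.TFAE [Algebra.IsAlgebraic ℚ F,
      ∀ (m n : ℕ) (A : Matrix (Fin (m + 1)) (Fin (m + 1)) {x : F // 0 ≤ x})
        (B : Matrix (Fin (n + 1)) (Fin (n + 1)) {x : F // 0 ≤ x}), SE A B → SSE A B,
      ∀ (m n : ℕ) (A : Matrix (Fin (m + 1)) (Fin (m + 1)) {x : F // 0 ≤ x})
        (B : Matrix (Fin (n + 1)) (Fin (n + 1)) {x : F // 0 ≤ x}),
        (∃ k : ℕ, 1 ≤ k ∧ ∀ i j, 0 < (A ^ k) i j) → (∃ k : ℕ, 1 ≤ k ∧ ∀ i j, 0 < (B ^ k) i j) →
        SE A B → SSE A B] := by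
  tfae_have 1 → 2 := fun h => Pool.Agent.MP_841a27_al.G.yes F h
  tfae_have 2 → 3 := fun h m n A B _ _ => h m n A B
  tfae_have 3 → 1 := fun h => by
    by_contra hn
    obtain ⟨A, B, hA, hB, h1, h2⟩ := Pool.Agent.MP_841a27_al.G.no hn
    exact h2 (h 2 2 A B hA hB h1)
  tfae_finish

/-- The posed question is the case of the rationals. -/
theorem q1 (m n : ℕ) (A : Matrix (Fin (m + 1)) (Fin (m + 1)) NNRat)
    (B : Matrix (Fin (n + 1)) (Fin (n + 1)) NNRat) (h : SE A B) : SSE A B := by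
  have h1 : Algebra.IsAlgebraic ℚ ℚ := ⟨fun x => isAlgebraic_algebraMap (R := ℚ) (A := ℚ) x⟩
  have h2 := ((result ℚ).out 0 1).mp h1
  exact h2 m n A B h

/-- The implication fails for primitive matrices over the nonnegative reals. -/
theorem reals : ¬ ∀ (m n : ℕ) (A : Matrix (Fin (m + 1)) (Fin (m + 1)) NNReal)
    (B : Matrix (Fin (n + 1)) (Fin (n + 1)) NNReal),
    (∃ k : ℕ, 1 ≤ k ∧ ∀ i j, 0 < (A ^ k) i j) → (∃ k : ℕ, 1 ≤ k ∧ ∀ i j, 0 < (B ^ k) i j) →
    SE A B → SSE A B := fun h => by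
  have h1 : Algebra.IsAlgebraic ℚ ℝ := ((result ℝ).out 2 0).mp h
  have := Algebra.IsAlgebraic.cardinalMk_le_max ℚ ℝ
  rw [Cardinal.mk_real, Cardinal.mkRat, max_self] at this
  exact absurd this (not_le.mpr Cardinal.aleph0_lt_continuum)

end Pool.Agent.Results.MP_841a27_al.OrderedFields
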